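import Pool.Agent.Results.MP_4a0cc8_nt.FewPartnersAllLevels
import Pool.Agent.X134.Win.NearZ
import Pool.Agent.X134.Win.Idx

/-!
# Elliptic curves whose invariant is near a generic complex number are not congruent to fixed curves

Let `d` be given. For every `ε > 0` there is `n₀`, depending only on `d` and `ε`, such that for every `η > 0` and all
complex numbers `x` outside a set of Hausdorff dimension at most `ε / η`: for EVERY number field `K` of degree `d`, every
embedding `σ` of `K` and EVERY elliptic curve `E₀` over `K`, all elliptic curves `E` over `K` such that `j(E)` has a large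
height `H` and `|σ(j(E)) - x| ≤ H ^ (-η)` have no isomorphism of Galois modules `E[n] ≅ E₀[n]` for any `n ≥ n₀`. Outside a
set of dimension zero this holds for every `η > 0`, with `n₀` depending on `d`, `x` and `η`.
-/

set_option autoImplicit false

open WeierstrassCurve NumberField Filter Topology
open scoped Classical ENNReal

namespace Pool.Agent.Results.MP_4a0cc8_nt.GenericInvariant

section
variable {K : Type} [Field K]

/-- The curve `y² = x³ + Ax + B` over `K`. -/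
def curve (A B : K) : WeierstrassCurve K := ⟨0, 0, 0, A, B⟩

/-- The group of its points over the algebraic closure of `K`. -/
abbrev Points (A B : K) : Type := ((curve A B).baseChange (AlgebraicClosure K)).toAffine.Point

/-- The action of a `K`-automorphism `σ` of the algebraic closure on the points. -/
noncomputable def galois (A B : K) (σ : AlgebraicClosure K ≃ₐ[K] AlgebraicClosure K) :
    Points A B →+ Points A B :=
  WeierstrassCurve.Affine.Point.map (σ : AlgebraicClosure K →ₐ[K] AlgebraicClosure K)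

/-- The `n`-torsion of `y² = x³ + Ax + B` and that of `y² = x³ + A'x + B'` are isomorphic as Galois
modules: some map between the groups of points restricts to a bijective additive map of the
`n`-torsion which commutes with the Galois group. -/
def Congruent (n : ℕ) (A B A' B' : K) : Prop :=
  ∃ f : Points A B → Points A' B', (∀ P Q, n • P = 0 → n • Q = 0 → f (P + Q) = f P + f Q) ∧
    Set.BijOn f {P | n • P = 0} {Q | n • Q = 0} ∧
    ∀ (σ : AlgebraicClosure K ≃ₐ[K] AlgebraicClosure K) (P : Points A B), n • P = 0 →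
      f (galois A B σ P) = galois A' B' σ (f P)

/-- The invariant of `y² = x³ + Ax + B`. -/
noncomputable def jInvariant (A B : K) : K := 6912 * A ^ 3 / (4 * A ^ 3 + 27 * B ^ 2)

end

/-- The height of the invariant of `y² = x³ + Ax + B`. -/
noncomputable def height (K : Type) [Field K] [NumberField K] (A B : K) : ℝ := Height.mulHeight₁ (jInvariant A B)

/-- For every embedding of the number field `K` and every elliptic curve `E₀` over `K`: no elliptic curve `E` over `K`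
with an invariant of large height `H` at distance at most `H ^ (-η)` from `x` is congruent to `E₀` modulo some
`n ≥ n₀`. -/
def NoPartners (K : Type) [Field K] [NumberField K] (n₀ : ℕ) (η : ℝ) (x : ℂ) : Prop :=
  ∀ (σ : K →+* ℂ) (A₀ B₀ : 𝓞 K), 4 * A₀ ^ 3 + 27 * B₀ ^ 2 ≠ 0 → ∃ H₀ : ℝ, ∀ A B : K,
    4 * A ^ 3 + 27 * B ^ 2 ≠ 0 → H₀ ≤ height K A B → ‖σ (jInvariant A B) - x‖ ≤ height K A B ^ (-η) →
    ∀ n : ℕ, n₀ ≤ n → ¬ Congruent n A B (A₀ : K) (B₀ : K)

/-- the number fields inside a fixed algebraic closure of the rationals (every number field is isomorphic to one) -/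
abbrev NF : Type := {F : IntermediateField ℚ (AlgebraicClosure ℚ) // FiniteDimensional ℚ F}

noncomputable instance (F : NF) : NumberField F.1 :=
  { to_charZero := inferInstance
    to_finiteDimensional := F.2 }

open Pool.Agent.X134.Win (two one_le_two nearX exists_two expLe_two)

lemma finite_of_finset_bound {T : Type} (S : Set T) (M : ℝ)
    (h : ∀ t : Finset T, (t : Set T) ⊆ S → (t.card : ℝ) ≤ M) : S.Finite ∧ (S.ncard : ℝ) ≤ M := by
  have hfin : S.Finite := by
    by_contra hinf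
    obtain ⟨t, ht1, ht2⟩ := (Set.not_finite.1 hinf : S.Infinite).exists_subset_card_eq (⌈M⌉₊ + 1)
    have h1 := h t ht1
    rw [ht2] at h1
    have h2 := Nat.le_ceil M
    push_cast at h1
    linarith
  refine ⟨hfin, ?_⟩
  rw [Set.ncard_eq_toFinset_card _ hfin]
  exact h _ (by simp)

lemma jInvariant_iso {K : Type} [Field K] (A B A' B' : K)
    (h : FewPartnersAllLevels.Isomorphic A B A' B') : jInvariant A' B' = jInvariant A B := by
  obtain ⟨t, ht, rfl, rfl⟩ := h
  unfold jInvariant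
  rw [show 6912 * (t ^ 4 * A) ^ 3 = t ^ 12 * (6912 * A ^ 3) by ring,
    show 4 * (t ^ 4 * A) ^ 3 + 27 * (t ^ 6 * B) ^ 2 = t ^ 12 * (4 * A ^ 3 + 27 * B ^ 2) by ring,
    mul_div_mul_left _ _ (pow_ne_zero _ ht)]

lemma count (K : Type) [Field K] [NumberField K] (n₀ : ℕ) (A₀ B₀ : 𝓞 K) (M X : ℝ)
    (h : ∀ 𝓔 : Finset (K × K), (∀ e ∈ 𝓔, ∀ e' ∈ 𝓔, FewPartnersAllLevels.Isomorphic e.1 e.2 e'.1 e'.2 → e = e') →
        (∀ e ∈ 𝓔, 4 * e.1 ^ 3 + 27 * e.2 ^ 2 ≠ 0 ∧
          Height.mulHeight₁ (FewPartnersAllLevels.jInvariant e.1 e.2) ≤ X ∧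
          ∃ n : ℕ, n₀ ≤ n ∧ FewPartnersAllLevels.Congruent n e.1 e.2 (A₀ : K) (B₀ : K)) → (𝓔.card : ℝ) ≤ M) :
    {j : K | Height.mulHeight₁ j ≤ X ∧ ∃ A B : K, 4 * A ^ 3 + 27 * B ^ 2 ≠ 0 ∧ jInvariant A B = j ∧
      ∃ n : ℕ, n₀ ≤ n ∧ Congruent n A B (A₀ : K) (B₀ : K)}.Finite ∧
    ({j : K | Height.mulHeight₁ j ≤ X ∧ ∃ A B : K, 4 * A ^ 3 + 27 * B ^ 2 ≠ 0 ∧ jInvariant A B = j ∧
      ∃ n : ℕ, n₀ ≤ n ∧ Congruent n A B (A₀ : K) (B₀ : K)}.ncard : ℝ) ≤ M := by
  refine finite_of_finset_bound _ _ fun t ht => ?_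
  have h1 : ∀ j : t, ∃ e : K × K, 4 * e.1 ^ 3 + 27 * e.2 ^ 2 ≠ 0 ∧ jInvariant e.1 e.2 = j ∧
      ∃ n : ℕ, n₀ ≤ n ∧ Congruent n e.1 e.2 (A₀ : K) (B₀ : K) := by
    rintro ⟨j, hj⟩
    obtain ⟨-, A, B, h2, h3, h4⟩ := ht (Finset.mem_coe.2 hj)
    exact ⟨(A, B), h2, h3, h4⟩
  choose e he1 he2 he3 using h1
  have hinj : Function.Injective e := fun i j hij => Subtype.ext (by rw [← he2 i, ← he2 j, hij])
  have h2 := h (Finset.univ.image e) (by
    intro a ha b hb hab
    obtain ⟨i, -, rfl⟩ := Finset.mem_image.1 ha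
    obtain ⟨j, -, rfl⟩ := Finset.mem_image.1 hb
    have h3 := jInvariant_iso _ _ _ _ hab
    rw [he2, he2] at h3
    rw [Subtype.ext h3.symm]) (by
    intro a ha
    obtain ⟨i, -, rfl⟩ := Finset.mem_image.1 ha
    refine ⟨he1 i, ?_, he3 i⟩
    have h3 := (ht (Finset.mem_coe.2 i.2)).1
    have h4 : FewPartnersAllLevels.jInvariant (e i).1 (e i).2 = i := he2 i
    rw [h4]
    exact h3)
  rw [Finset.card_image_of_injective _ hinj, Finset.card_univ, Fintype.card_coe] at h2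
  exact h2

instance countable_hom (K : NF) : Countable (K.1 →+* ℂ) := by
  have : Finite (K.1 →+* ℂ) := inferInstance
  infer_instance

instance countable_int (K : NF) : Countable (𝓞 K.1) := Pool.Agent.X134.Win.countable_integers K.1

lemma part1 (d : ℕ) (ε : ℝ) (hε : 0 < ε) : ∃ n₀ : ℕ, ∀ η : ℝ, 0 < η → ∃ E : Set ℂ, dimH E ≤ ENNReal.ofReal (ε / η) ∧
    ∀ x : ℂ, x ∉ E → ∀ K : NF, Module.finrank ℚ K.1 = d → NoPartners K.1 n₀ η x := by
  obtain ⟨n₀, hn₀⟩ := FewPartnersAllLevels.result d ε hε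
  refine ⟨n₀, fun η hη => ?_⟩
  have hone : ∀ i : (Σ K : NF, (K.1 →+* ℂ) × 𝓞 K.1 × 𝓞 K.1), ∃ E : Set ℂ, dimH E ≤ ENNReal.ofReal (ε / η) ∧
      ∀ x : ℂ, x ∉ E → Module.finrank ℚ i.1.1 = d → 4 * i.2.2.1 ^ 3 + 27 * i.2.2.2 ^ 2 ≠ 0 →
      ∃ H₀ : ℝ, ∀ A B : i.1.1, 4 * A ^ 3 + 27 * B ^ 2 ≠ 0 → H₀ ≤ height i.1.1 A B →
        ‖i.2.1 (jInvariant A B) - x‖ ≤ height i.1.1 A B ^ (-η) →
        ∀ n : ℕ, n₀ ≤ n → ¬ Congruent n A B (i.2.2.1 : i.1.1) (i.2.2.2 : i.1.1) := by
    rintro ⟨K, σ, A₀, B₀⟩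
    by_cases hd : Module.finrank ℚ K.1 = d ∧ 4 * A₀ ^ 3 + 27 * B₀ ^ 2 ≠ 0
    · obtain ⟨C, κ, hC⟩ := hn₀ K.1 hd.1
      have hCC := hC A₀ B₀ hd.2
      obtain ⟨W, hW⟩ : ∃ W : ℝ, W = C * |((Algebra.norm ℤ (4 * A₀ ^ 3 + 27 * B₀ ^ 2) : ℤ) : ℝ)| ^ κ := ⟨_, rfl⟩
      obtain ⟨E, hE1, hE2⟩ := nearX (X := ℂ) (T := K.1)
        (fun n => {j : K.1 | Height.mulHeight₁ j ≤ two n ∧ ∃ A B : K.1, 4 * A ^ 3 + 27 * B ^ 2 ≠ 0 ∧
          jInvariant A B = j ∧ ∃ n : ℕ, n₀ ≤ n ∧ Congruent n A B (A₀ : K.1) (B₀ : K.1)}) (fun j => σ j)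
        (s := ε) (τ := 0) (η := η) (B := 2 ^ η) one_le_two le_rfl expLe_two hε.le hη (by positivity)
        (fun δ hδ => ⟨|W|, fun n => by
          have h0 : (0 : ℝ) ≤ two n := zero_le_one.trans (one_le_two n)
          obtain ⟨h1, h2⟩ := count K.1 n₀ A₀ B₀ (W * two n ^ ε) (two n) (fun 𝓔 h3 h4 => by
            rw [hW]
            exact hCC (two n) (one_le_two n) 𝓔 h3 h4)
          refine ⟨h1, h2.trans ?_⟩
          calc W * two n ^ ε ≤ |W| * two n ^ ε :=
                mul_le_mul_of_nonneg_right (le_abs_self _) (Real.rpow_nonneg h0 _)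
            _ ≤ |W| * two n ^ (ε + δ) :=
                mul_le_mul_of_nonneg_left (Real.rpow_le_rpow_of_exponent_le (one_le_two n) (by linarith))
                  (abs_nonneg _)⟩)
      rw [add_zero] at hE1
      refine ⟨E, hE1, fun x hx _ _ => ?_⟩
      obtain ⟨m₀, hm₀⟩ := hE2 x hx
      refine ⟨max 1 (two m₀), fun A B hAB hH hx2 n hn hcon => ?_⟩
      have hH1 : 1 ≤ height K.1 A B := le_trans (le_max_left _ _) hH
      have hHp : 0 < height K.1 A B := by linarith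
      obtain ⟨m, hm1, hm2⟩ := exists_two (height K.1 A B) hH1
      have hmm : m₀ ≤ m := by
        by_contra hc
        rw [not_le] at hc
        have h5 : two m < two m₀ := pow_lt_pow_right₀ (by norm_num) hc
        have h6 : two m₀ ≤ height K.1 A B := le_trans (le_max_right _ _) hH
        linarith
      have hnp : 0 < two m := lt_of_lt_of_le one_pos (one_le_two m)
      have h3 := hm₀ m hmm (jInvariant A B) ⟨hm1, A, B, hAB, rfl, n, hn, hcon⟩
      rw [dist_eq_norm] at h3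
      have h4 : height K.1 A B ^ (-η) ≤ 2 ^ η * two m ^ (-η) := by
        calc height K.1 A B ^ (-η) ≤ (two m / 2) ^ (-η) := by
              rw [Real.rpow_neg hHp.le, Real.rpow_neg (by positivity)]
              refine inv_anti₀ (by positivity) ?_
              exact Real.rpow_le_rpow (by positivity) (by linarith) hη.le
          _ = 2 ^ η * (two m) ^ (-η) := by
              rw [Real.div_rpow hnp.le (by norm_num), Real.rpow_neg (by norm_num : (0 : ℝ) ≤ 2), div_inv_eq_mul,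
                mul_comm]
      linarith
    · exact ⟨∅, by simp, fun x _ h1 h2 => absurd ⟨h1, h2⟩ hd⟩
  choose E hE1 hE2 using hone
  refine ⟨⋃ i, E i, ?_, fun x hx K hK σ A₀ B₀ hAB => ?_⟩
  · rw [dimH_iUnion]
    exact iSup_le hE1
  · exact hE2 ⟨K, σ, A₀, B₀⟩ x (fun h => hx (Set.mem_iUnion.2 ⟨_, h⟩)) hK hAB

/-- **Theorem.** Let `d` be given.

1. For every `ε > 0` there is `n₀` such that for every `η > 0` there is a set `E` of complex numbers of Hausdorff dimension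
at most `ε / η` such that for all `x ∉ E` and all number fields `K` of degree `d`: `NoPartners K n₀ η x`.

2. There is a set `E` of complex numbers of Hausdorff dimension zero such that for all `x ∉ E` and `η > 0` there is `n₀`
such that for all number fields `K` of degree `d`: `NoPartners K n₀ η x`. -/
theorem result (d : ℕ) :
    (∀ ε : ℝ, 0 < ε → ∃ n₀ : ℕ, ∀ η : ℝ, 0 < η → ∃ E : Set ℂ, dimH E ≤ ENNReal.ofReal (ε / η) ∧
      ∀ x : ℂ, x ∉ E → ∀ K : NF, Module.finrank ℚ K.1 = d → NoPartners K.1 n₀ η x) ∧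
    (∃ E : Set ℂ, dimH E = 0 ∧ ∀ x : ℂ, x ∉ E → ∀ η : ℝ, 0 < η → ∃ n₀ : ℕ, ∀ K : NF, Module.finrank ℚ K.1 = d →
      NoPartners K.1 n₀ η x) := by
  refine ⟨part1 d, ?_⟩
  have he : ∀ m : ℕ, (0 : ℝ) < 1 / ((m : ℝ) + 1) := fun m => by positivity
  choose N E hE1 hE2 using fun m : ℕ => part1 d (1 / ((m : ℝ) + 1)) (he m)
  choose F hF using fun (j m : ℕ) => (⟨E m (1 / ((j : ℝ) + 1)) (he j), rfl⟩ :
    ∃ F : Set ℂ, F = E m (1 / ((j : ℝ) + 1)) (he j))
  refine ⟨⋃ j : ℕ, ⋂ m : ℕ, F j m, ?_, fun x hx η hη => ?_⟩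
  · refine le_antisymm ?_ zero_le
    rw [dimH_iUnion]
    refine iSup_le fun j => ?_
    have hlim : Tendsto (fun m : ℕ => ENNReal.ofReal ((1 / ((m : ℝ) + 1)) / (1 / ((j : ℝ) + 1)))) atTop (𝓝 0) := by
      rw [← ENNReal.ofReal_zero]
      refine ENNReal.tendsto_ofReal ?_
      have h3 := (tendsto_one_div_add_atTop_nhds_zero_nat (𝕜 := ℝ)).div_const (1 / ((j : ℝ) + 1))
      simpa using h3
    refine ge_of_tendsto' hlim fun m => (dimH_mono (Set.iInter_subset _ m)).trans ?_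
    rw [hF]
    exact hE1 m _ _
  · obtain ⟨j, hj⟩ := exists_nat_gt (1 / η)
    have h1 : x ∉ ⋂ m : ℕ, F j m := fun h => hx (Set.mem_iUnion.2 ⟨j, h⟩)
    rw [Set.mem_iInter] at h1
    push Not at h1
    obtain ⟨m, hm⟩ := h1
    rw [hF] at hm
    have hηj : 1 / ((j : ℝ) + 1) ≤ η := by
      rw [div_le_iff₀ (by positivity)]
      rw [div_lt_iff₀ hη] at hj
      nlinarith
    refine ⟨N m, fun K hK σ A₀ B₀ hAB => ?_⟩
    obtain ⟨H₀, hH₀⟩ := hE2 m _ _ x hm K hK σ A₀ B₀ hAB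
    refine ⟨max 1 H₀, fun A B hA hH hx2 => hH₀ A B hA ((le_max_right _ _).trans hH) (hx2.trans ?_)⟩
    exact Real.rpow_le_rpow_of_exponent_le ((le_max_left _ _).trans hH) (by linarith)

end Pool.Agent.Results.MP_4a0cc8_nt.GenericInvariant
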