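import Pool.Agent.X295.GalI

/-!
# MP_4a0cc8_nt: families of elliptic curves with several parameters, all levels

Let `K` be a number field, `j = F/G` a rational function over `K` in `q` variables, `n ≥ 1` and `N ≥ 13` with
`n < N`, `8n < N² - 1`.  There is `n₀` such that for every `ε > 0`:

(1) If `j` is not a polynomial, then for all but `O(Z^(1 + ε) H^(q - 1 + [K : ℚ] deg G / N + ε))` of the `≍ H^q`
integral vectors `u` with `|u_j| ≤ H` the following holds.  Let `L` be any extension of `K` of degree at most `n`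
over `ℚ`, and `E` any elliptic curve over `L` with invariant `j(u)`.  Then `E` has NO congruence modulo ANY
`m ≥ n₀`, or modulo any prime `p ≥ N`, with ANY elliptic curve `E₀` over `L` whose bad places all divide one
positive integer `T ≤ Z`.  (For primes `p ≥ N` it is enough that the invariant of `E₀` is integral outside `T`, and
then even the `p`-division fields are different.)

(2) If `j` is not constant, the same holds for all but
`O(Z^(1 + ε) H^(q + [K : ℚ] max(deg F, deg G) / N + ε))` of the `≍ H^(q + 1)` rational vectors of height at most `H`.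

So for a fixed `E₀` (`Z` fixed) with `n₀` NOT depending on `E₀` the members congruent to `E₀` modulo some
`m ≥ n₀` are very few, and for `Z = H^c`, `c < 1`: for almost all members the curves congruent to them
have bad primes with product at least `H^c`.

Proof. As in the other files on families with several parameters: at suitable primes the valuation of `j(u)`
is `- μ` times that of `g(u)`, `g` the irreducible polynomial of a pole of `j`; by the local theory of
`Pool.Agent.Y673.FM` (for primes above `p` too, and for prime powers `p^k`) it is divisible by `p` (or almost by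
`p^k`) at the places where `E₀` has good reduction.  So the norm of `g(u)` is a `β`-th power, `β ≥ N`, up to divisors of
powers of `T` and of the eliminant, and these values are few, uniformly on all lines in a given direction.
-/

set_option autoImplicit false

open WeierstrassCurve NumberField IsDedekindDomain
open scoped Classical

namespace Pool.Agent.Results.MP_4a0cc8_nt.MultiParameterFamilies

section
variable {L : Type} [Field L]

/-- The curve `y² = x³ + Ax + B` over `L`. -/
def curve (A B : L) : WeierstrassCurve L := ⟨0, 0, 0, A, B⟩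

/-- The group of its points over the algebraic closure of `L`. -/
abbrev Points (A B : L) : Type := ((curve A B).baseChange (AlgebraicClosure L)).toAffine.Point

/-- The action of an `L`-automorphism `σ` of the algebraic closure on the points. -/
noncomputable def galois (A B : L) (σ : AlgebraicClosure L ≃ₐ[L] AlgebraicClosure L) :
    Points A B →+ Points A B :=
  WeierstrassCurve.Affine.Point.map (σ : AlgebraicClosure L →ₐ[L] AlgebraicClosure L)

/-- The curves `y² = x³ + Ax + B` and `y² = x³ + A'x + B'` have the same `p`-division field: an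
automorphism fixes all points killed by `p` of the first if and only if it fixes all points killed
by `p` of the second. -/
def SameDivisionField (p : ℕ) (A B A' B' : L) : Prop :=
  ∀ σ : AlgebraicClosure L ≃ₐ[L] AlgebraicClosure L,
    (∀ P : Points A B, p • P = 0 → galois A B σ P = P) ↔
      (∀ P : Points A' B', p • P = 0 → galois A' B' σ P = P)

/-- The `m`-torsion of `y² = x³ + Ax + B` and that of `y² = x³ + A'x + B'` are isomorphic as Galois
modules: some map between the groups of points restricts to a bijective additive map of the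
`m`-torsion which commutes with the Galois group. -/
def Congruent (m : ℕ) (A B A' B' : L) : Prop :=
  ∃ f : Points A B → Points A' B', (∀ P Q, m • P = 0 → m • Q = 0 → f (P + Q) = f P + f Q) ∧
    Set.BijOn f {P | m • P = 0} {Q | m • Q = 0} ∧
    ∀ (σ : AlgebraicClosure L ≃ₐ[L] AlgebraicClosure L) (P : Points A B), m • P = 0 →
      f (galois A B σ P) = galois A' B' σ (f P)

/-- The invariant of `y² = x³ + Ax + B`. -/
noncomputable def jInvariant (A B : L) : L := 6912 * A ^ 3 / (4 * A ^ 3 + 27 * B ^ 2)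

variable [NumberField L]

/-- The invariant of `y² = x³ + Ax + B` is integral at the places which do not divide `T`. -/
def PotentiallyGoodOutside (T : ℕ) (A B : L) : Prop :=
  ∀ w : HeightOneSpectrum (𝓞 L), (T : 𝓞 L) ∉ w.asIdeal → w.valuation L (jInvariant A B) ≤ 1

/-- The places which divide `4A³ + 27B²` divide `T`. -/
def GoodOutside (T : ℕ) (A B : 𝓞 L) : Prop :=
  ∀ w : HeightOneSpectrum (𝓞 L), 4 * A ^ 3 + 27 * B ^ 2 ∈ w.asIdeal → (T : 𝓞 L) ∈ w.asIdeal

/-- The curve `y² = x³ + Ax + B` over `L` has, for a prime `p ≥ N`, the same `p`-division field as an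
elliptic curve over `L` with potentially good reduction outside `T`; or it is congruent modulo some
`m ≥ n₀` to an elliptic curve `y² = x³ + A₀x + B₀`, `A₀`, `B₀` integral, with discriminant a unit outside
`T`. -/
def HasPartner (N n₀ T : ℕ) (A B : L) : Prop :=
  (∃ A₀ B₀ : L, 4 * A₀ ^ 3 + 27 * B₀ ^ 2 ≠ 0 ∧ PotentiallyGoodOutside T A₀ B₀ ∧
    ∃ p : ℕ, p.Prime ∧ N ≤ p ∧ SameDivisionField p A B A₀ B₀) ∨
  (∃ A₀ B₀ : 𝓞 L, 4 * A₀ ^ 3 + 27 * B₀ ^ 2 ≠ 0 ∧ GoodOutside T A₀ B₀ ∧
    ∃ m : ℕ, n₀ ≤ m ∧ Congruent m A B (A₀ : L) (B₀ : L))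

end

/-- `j` is the invariant of an elliptic curve over an extension of `K` of degree at most `n` over `ℚ`
which has a partner, for some positive `T ≤ Z`. -/
def Exceptional {K : Type} [Field K] (n N n₀ Z : ℕ) (j : K) : Prop :=
  ∃ (L : Type) (_ : Field L) (_ : NumberField L) (_ : Algebra K L), Module.finrank ℚ L ≤ n ∧
    ∃ A B : L, 4 * A ^ 3 + 27 * B ^ 2 ≠ 0 ∧ jInvariant A B = algebraMap K L j ∧
      ∃ T : ℕ, 1 ≤ T ∧ T ≤ Z ∧ HasPartner N n₀ T A B

/-- The exceptional integral parameters `u` in the box `|u_j| ≤ H`. -/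
def IntegralExceptions {K : Type} [Field K] {q : ℕ} (F G : MvPolynomial (Fin q) K)
    (n N n₀ Z H : ℕ) : Set (Fin q → ℤ) :=
  {u | (∀ j, |u j| ≤ H) ∧ MvPolynomial.eval (fun j => ((u j : ℤ) : K)) G ≠ 0 ∧
    Exceptional n N n₀ Z (MvPolynomial.eval (fun j => ((u j : ℤ) : K)) F /
      MvPolynomial.eval (fun j => ((u j : ℤ) : K)) G)}

/-- The height of `t ∈ ℚ^q` is at most `H`: `t = (x_1 / x_0, …, x_q / x_0)` with integers `x_i`,
`|x_i| ≤ H`. -/
def HeightLe {q : ℕ} (H : ℕ) (t : Fin q → ℚ) : Prop :=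
  ∃ x : Fin (q + 1) → ℤ, x 0 ≠ 0 ∧ (∀ i, |x i| ≤ H) ∧ ∀ j, t j = x j.succ / x 0

/-- The exceptional rational parameters `t` of height at most `H`. -/
def RationalExceptions {K : Type} [Field K] {q : ℕ} (F G : MvPolynomial (Fin q) K)
    (n N n₀ Z H : ℕ) : Set (Fin q → ℚ) :=
  {t | HeightLe H t ∧ MvPolynomial.eval (fun j => ((t j : ℚ) : K)) G ≠ 0 ∧
    Exceptional n N n₀ Z (MvPolynomial.eval (fun j => ((t j : ℚ) : K)) F /
      MvPolynomial.eval (fun j => ((t j : ℚ) : K)) G)}

theorem G_of_le {L : Type} [Field L] [NumberField L] (w : HeightOneSpectrum (𝓞 L)) {x : L}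
    (h : w.valuation L x ≤ 1) : (Pool.Agent.Y673.Loc.adv L w).G 0 x := by
  by_cases hx : x = 0
  · exact Or.inl hx
  right
  show (0 : ℤ) ≤ -WithZero.log (w.valuation L x)
  have h1 : w.valuation L x ≠ 0 := (Valuation.ne_zero_iff _).2 hx
  have h2 := (WithZero.log_le_log h1 one_ne_zero).2 h
  rw [WithZero.log_one] at h2
  omega

theorem related {L : Type} [Field L] [NumberField L] {N n₀ n₁ T : ℕ} (hn : n₁ ≤ n₀) {A B : L}
    (h : HasPartner N n₀ T A B) (hT : 1 ≤ T) : Pool.Agent.X295.Gal.Related L N n₁ T A B := by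
  have hmem : ∀ w : HeightOneSpectrum (𝓞 L), (Pool.Agent.Y673.Loc.adv L w).v ((T : ℕ) : L) = 0 →
      (T : 𝓞 L) ∉ w.asIdeal := fun w hw h1 =>
    Pool.Agent.Y673.CB.v_pos_of_mem w (by omega) h1 hw
  rcases h with ⟨A₀, B₀, h1, h2, p, h3, h4, h5⟩ | ⟨A₀, B₀, h1, h2, m, h3, f, h4, h5, h6⟩
  · exact Or.inl ⟨A₀, B₀, h1, fun w hw => G_of_le w (h2 w (hmem w hw)), p, h3, h4, h5⟩
  · refine Or.inr ⟨A₀, B₀, h1, fun w hw => ?_, m, hn.trans h3, f, h4, h5, h6⟩
    by_contra hcon
    have e : ((4 * A₀ ^ 3 + 27 * B₀ ^ 2 : 𝓞 L) : L) = 4 * (A₀ : L) ^ 3 + 27 * (B₀ : L) ^ 2 := by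
      push_cast
      rfl
    rw [← e] at hcon
    exact hmem w hw (h2 w (Pool.Agent.X295.Gal.mem_of_v w h1 hcon))

/-- **Few congruences with curves with few bad places, in families with several parameters.** -/
theorem result (K : Type) [Field K] [NumberField K] (q : ℕ) (F G : MvPolynomial (Fin q) K)
    (hG : G ≠ 0) (n N : ℕ) (hN : 13 ≤ N) (hn : n < N) (hn' : 8 * n < N ^ 2 - 1) :
    ∃ n₀ : ℕ, ∀ ε : ℝ, 0 < ε →
    (¬ G ∣ F → ∃ C : ℝ, ∀ H Z : ℕ, 1 ≤ H → 1 ≤ Z → (IntegralExceptions F G n N n₀ Z H).Finite ∧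
      ((IntegralExceptions F G n N n₀ Z H).ncard : ℝ) ≤ C * (Z : ℝ) ^ (1 + ε) *
        (H : ℝ) ^ ((q : ℝ) - 1 + (Module.finrank ℚ K * G.totalDegree : ℕ) / N + ε)) ∧
    ((∀ c : K, F ≠ MvPolynomial.C c * G) → ∃ C : ℝ, ∀ H Z : ℕ, 1 ≤ H → 1 ≤ Z →
      (RationalExceptions F G n N n₀ Z H).Finite ∧
      ((RationalExceptions F G n N n₀ Z H).ncard : ℝ) ≤ C * (Z : ℝ) ^ (1 + ε) *
        (H : ℝ) ^ ((q : ℝ) +
          (Module.finrank ℚ K * max F.totalDegree G.totalDegree : ℕ) / N + ε)) := by
  refine ⟨max (Pool.Agent.X295.Gal.lev n G.totalDegree N)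
    (Pool.Agent.X295.Gal.lev n (max F.totalDegree G.totalDegree) N), fun ε hε => ⟨?_, ?_⟩⟩
  · intro hFG
    obtain ⟨C, -, hC⟩ := Pool.Agent.X295.Gal.mainB F G hG hFG n N hN hn hn' ε hε
    refine ⟨C, fun H Z hH hZ => hC H Z hH hZ _ ?_⟩
    rintro u ⟨h1, h2, L, iF, iN, iA, h3, A, B, h4, h5, T, h6, h7, h8⟩
    exact ⟨h1, h2, L, iF, iN, iA, h3, A, B, h4, h5, T, h6, h7, related (le_max_left _ _) h8 h6⟩
  · intro hFG
    obtain ⟨C, -, hC⟩ := Pool.Agent.X295.Gal.mainB_rat F G hG hFG n N hN hn hn' ε hε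
    refine ⟨C, fun H Z hH hZ => hC H Z hH hZ _ ?_⟩
    rintro t ⟨⟨x, hx⟩, h2, L, iF, iN, iA, h3, A, B, h4, h5, T, h6, h7, h8⟩
    exact ⟨⟨x, hx⟩, h2, L, iF, iN, iA, h3, A, B, h4, h5, T, h6, h7,
      related (le_max_right _ _) h8 h6⟩

end Pool.Agent.Results.MP_4a0cc8_nt.MultiParameterFamilies
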