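import Mathlib
import Pool.Agent.X286.Win.Cond
import Pool.Agent.Results.MP_4a0cc8_nt.ConductorOrderedAllLevels

/-!
# Congruences do not lower the conductor, without exceptions for the curves whose conductor is in windows

The definitions are those of the starting file `ConductorOrderedAllLevels`: `curve A B` is `y ^ 2 = x ^ 3 + A x + B`,
`FullTwo` full rational two-torsion, `cond` the norm of the conductor (outside two), `badProduct` the product of the
norms of the bad primes (outside two), `poleProduct` the one of the primes of potentially multiplicative reduction,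
`Congruent n A B A' B'` an isomorphism of the Galois modules of the points killed by `n`, `SameDivisionField` the
equality of the fields generated by the points killed by `p`.
-/

set_option autoImplicit false

namespace Pool.Agent.Results.MP_4a0cc8_nt.NoLoweringInWindows

open MeasureTheory Filter Topology
open Pool.Agent.X286.Win.Cond (IsoClass condQ condQ_mk All sparse_prop finite_all sparse_all
  one_le_cond)
open Pool.Agent.Results.MP_4a0cc8_nt.ConductorOrderedAllLevels (curve FullTwo cond badProduct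
  poleProduct Congruent SameDivisionField HasSmallCompanion Exceptional)

/-- the exponent of convergence of the sequence `v` is at most `τ` -/
def ExpLe (v : ℕ → ℝ) (τ : ℝ) : Prop := ∀ t : ℝ, τ < t → Summable (fun n : ℕ => (v n) ^ (-t))

section lemmas

variable {K : Type} [Field K] [NumberField K]

/-- the classes with a small companion -/
def Ex (K : Type) [Field K] [NumberField K] (η : ℝ) : Set (IsoClass K) :=
  {q | ∃ A B : K, Quotient.mk'' (curve A B) = q ∧ 4 * A ^ 3 + 27 * B ^ 2 ≠ 0 ∧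
    FullTwo (curve A B) ∧ HasSmallCompanion A B (cond (curve A B) ^ (1 - η))}

theorem disc_ne {A B : K} (h : 4 * A ^ 3 + 27 * B ^ 2 ≠ 0) : (curve A B).Δ ≠ 0 := by
  unfold curve
  simp only [WeierstrassCurve.Δ, WeierstrassCurve.b₂, WeierstrassCurve.b₄, WeierstrassCurve.b₆,
    WeierstrassCurve.b₈]
  intro h0
  apply h
  have h1 : (-16 : K) * (4 * A ^ 3 + 27 * B ^ 2) = 0 := by
    rw [← h0]
    ring
  rcases mul_eq_zero.1 h1 with h2 | h2
  · norm_num at h2
  · exact h2

theorem ex_sub (η : ℝ) : Ex K η ⊆ All K := by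
  rintro q ⟨A, B, h1, h2, h3, -⟩
  exact ⟨curve A B, h1, disc_ne h2, h3⟩

theorem sparse_ex (K : Type) [Field K] [NumberField K] {η : ℝ} (hη0 : 0 < η) (hη1 : η < 1) :
    ∃ ν : ℝ, 0 < ν ∧ ν ≤ 2 / 3 ∧ Pool.Agent.X286.Win.Sparse (Ex K η) condQ (2 / 3 - ν) := by
  obtain ⟨-, h0⟩ := ConductorOrderedAllLevels.result K
  obtain ⟨ν₀, X₁, hν₀, h⟩ := h0 η hη0
  obtain ⟨ν, hν⟩ : ∃ ν, ν = min ν₀ (2 / 3) := ⟨_, rfl⟩
  have hν1 : ν ≤ ν₀ := by rw [hν]; exact min_le_left _ _
  have hν2 : ν ≤ 2 / 3 := by rw [hν]; exact min_le_right _ _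
  refine ⟨ν, by rw [hν]; exact lt_min hν₀ (by norm_num), hν2, ?_⟩
  refine sparse_prop (ex_sub η) (X₁ := max X₁ 1) hν2 fun X hX => ?_
  have hX1 : X₁ ≤ X := (le_max_left _ _).trans hX
  have hX2 : 1 ≤ X := (le_max_right _ _).trans hX
  have hsub : {q | q ∈ Ex K η ∧ condQ q ≤ X} ⊆ Exceptional K η X := by
    rintro q ⟨⟨A, B, h1, h2, h3, A', B', h4, h5⟩, h8⟩
    rw [condQ_mk h1] at h8
    have h6 : cond (curve A B) ^ (1 - η) ≤ X ^ (1 - η) :=
      Real.rpow_le_rpow (le_trans zero_le_one (one_le_cond _)) h8 (by linarith)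
    refine ⟨A, B, h1, h2, h3, h8, A', B', h4, ?_⟩
    rcases h5 with ⟨h9, h10⟩ | ⟨h9, h10⟩
    · exact Or.inl ⟨h9.trans_le h6, h10⟩
    · exact Or.inr ⟨h9.trans_le h6, h10⟩
  have hfin : (Exceptional K η X).Finite := by
    refine (finite_all K X).subset ?_
    rintro q ⟨A, B, h1, h2, h3, h4, -⟩
    exact ⟨⟨curve A B, h1, disc_ne h2, h3⟩, by rw [condQ_mk h1]; exact h4⟩
  have h9 : (({q | q ∈ Ex K η ∧ condQ q ≤ X}.ncard : ℕ) : ℝ) ≤
      ((Exceptional K η X).ncard : ℝ) := by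
    exact_mod_cast Set.ncard_le_ncard hsub hfin
  refine h9.trans ((h X hX1).trans ?_)
  exact mul_le_mul_of_nonneg_right (Real.rpow_le_rpow_of_exponent_le hX2 (by linarith))
    (Nat.cast_nonneg _)

end lemmas

/-- Let `K` be a number field of degree `d`. For `0 < η < 1` there is `ν > 0` such that for all sequences `v n ≥ 1` of
exponent of convergence at most `τ ≥ 0` and all `θ < 1`:
(1) for all `a > 0` outside a set of Hausdorff dimension at most `(2/3 - ν + τ) / (1 - θ)` and all but finitely many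
`n`, EVERY elliptic curve `E₀ : y ^ 2 = x ^ 3 + A x + B` over `K` with full two-torsion and
`|cond E₀ - a v n| ≤ (v n) ^ θ`, of whatever height, has the following property, for every elliptic curve
`E : y ^ 2 = x ^ 3 + A' x + B'` over `K`: if `E₀[m]` and `E[m]` are isomorphic Galois modules for some
`m > 121 ^ (8 d + 13)`, the product of the norms of the bad primes of `E` is at least `(cond E₀) ^ (1 - η)`; if
`K(E₀[p]) = K(E[p])` for some prime `p ≥ 13` with `p ^ 2 > 8 d + 1`, this holds for the primes of potentially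
multiplicative reduction;
(2) for all `a > 0` outside a set of dimension at most `(2/3 + τ) / (1 - θ)` and all but finitely many `n` there is no
elliptic curve over `K` with full two-torsion and `|cond E₀ - a v n| ≤ (v n) ^ θ`.
(3), (4) The powers of `n + 1` and the geometric progressions are examples of `v`. -/
theorem result (K : Type) [Field K] [NumberField K] :
    (∀ η : ℝ, 0 < η → η < 1 → ∃ ν : ℝ, 0 < ν ∧ ν ≤ 2 / 3 ∧
      ∀ (v : ℕ → ℝ) (τ θ : ℝ), (∀ n, 1 ≤ v n) → 0 ≤ τ → ExpLe v τ → θ < 1 →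
      ∃ X : Set ℝ, dimH X ≤ ENNReal.ofReal ((2 / 3 - ν + τ) / (1 - θ)) ∧
        ∀ a : ℝ, 0 < a → a ∉ X → ∃ n₀ : ℕ, ∀ n : ℕ, n₀ ≤ n → ∀ A B : K,
          4 * A ^ 3 + 27 * B ^ 2 ≠ 0 → FullTwo (curve A B) →
          |cond (curve A B) - a * v n| ≤ (v n) ^ θ →
          ∀ A' B' : K, 4 * A' ^ 3 + 27 * B' ^ 2 ≠ 0 →
            (∀ m : ℕ, 121 ^ (8 * Module.finrank ℚ K + 13) < m → Congruent m A B A' B' →
              cond (curve A B) ^ (1 - η) ≤ badProduct (curve A' B')) ∧
            (∀ p : ℕ, p.Prime → 13 ≤ p → 8 * Module.finrank ℚ K + 1 < p ^ 2 →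
              SameDivisionField p A B A' B' →
              cond (curve A B) ^ (1 - η) ≤ poleProduct A' B')) ∧
    (∀ (v : ℕ → ℝ) (τ θ : ℝ), (∀ n, 1 ≤ v n) → 0 ≤ τ → ExpLe v τ → θ < 1 →
      ∃ X : Set ℝ, dimH X ≤ ENNReal.ofReal ((2 / 3 + τ) / (1 - θ)) ∧
        ∀ a : ℝ, 0 < a → a ∉ X → ∃ n₀ : ℕ, ∀ n : ℕ, n₀ ≤ n → ∀ A B : K,
          4 * A ^ 3 + 27 * B ^ 2 ≠ 0 → FullTwo (curve A B) →
          (v n) ^ θ < |cond (curve A B) - a * v n|) ∧
    (∀ b : ℝ, 0 < b → ExpLe (fun n : ℕ => ((n : ℝ) + 1) ^ b) (1 / b)) ∧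
    (∀ b : ℝ, 1 < b → ExpLe (fun n : ℕ => b ^ n) 0) := by
  refine ⟨?_, ?_, fun b hb => Pool.Agent.Y854.GM.expLe_pow b hb,
    fun b hb => Pool.Agent.Y854.GM.expLe_geom b hb⟩
  · intro η hη0 hη1
    obtain ⟨ν, hν0, hν1, hS⟩ := sparse_ex K hη0 hη1
    refine ⟨ν, hν0, hν1, fun v τ θ hv hτ hE hθ => ?_⟩
    obtain ⟨X, h1, h2⟩ := Pool.Agent.Y854.GM.windows (Ex K η) condQ hv hτ hE (by linarith) hθ hS
    refine ⟨X, h1, fun a ha haX => ?_⟩
    obtain ⟨n₀, hn⟩ := h2 a ha haX
    refine ⟨n₀, fun n hn1 A B hD hF hw A' B' hD' => ?_⟩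
    have h5 : condQ (Quotient.mk'' (curve A B) : IsoClass K) = cond (curve A B) := condQ_mk rfl
    have key : ¬ HasSmallCompanion A B (cond (curve A B) ^ (1 - η)) := by
      intro hcon
      have h4 := hn n hn1 (Quotient.mk'' (curve A B)) ⟨A, B, rfl, hD, hF, hcon⟩
      rw [h5] at h4
      exact absurd h4 (not_lt.2 hw)
    refine ⟨fun m hm hc => ?_, fun p hp h13 hpd hs => ?_⟩
    · by_contra hcon
      push Not at hcon
      exact key ⟨A', B', hD', Or.inl ⟨hcon, m, hm, hc⟩⟩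
    · by_contra hcon
      push Not at hcon
      exact key ⟨A', B', hD', Or.inr ⟨hcon, p, hp, h13, hpd, hs⟩⟩
  · intro v τ θ hv hτ hE hθ
    obtain ⟨X, h1, h2⟩ := Pool.Agent.Y854.GM.windows (All K) condQ hv hτ hE (by norm_num) hθ
      (sparse_all K)
    refine ⟨X, h1, fun a ha haX => ?_⟩
    obtain ⟨n₀, hn⟩ := h2 a ha haX
    refine ⟨n₀, fun n hn1 A B hD hF => ?_⟩
    have h4 := hn n hn1 (Quotient.mk'' (curve A B)) ⟨curve A B, rfl, disc_ne hD, hF⟩
    have h5 : condQ (Quotient.mk'' (curve A B) : IsoClass K) = cond (curve A B) := condQ_mk rfl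
    rwa [h5] at h4

end Pool.Agent.Results.MP_4a0cc8_nt.NoLoweringInWindows
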