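import Pool.Agent.Results.MP_4a0cc8_nt.PartnerWindows
import Pool.Agent.X16.NW.D

/-!
# No curve with the height of its invariant near the powers of almost all real numbers is congruent to a given curve

Let `K` be a number field and `H` the height on `K`. There is a set `E` of real numbers of Hausdorff dimension zero such that
for each real number `t > 1` outside `E` and each `θ < 1` there is `n₀` with the following property: for EVERY elliptic curve
`E₀ : y² = x³ + A₀x + B₀` over `K`, `A₀`, `B₀` integral, and all large `m`, NO elliptic curve `E` over `K` with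
`|H(j(E)) - t ^ m| ≤ t ^ (θ m)` satisfies `E[n] ≅ E₀[n]` for some `n ≥ n₀`. The same is true for `t ^ κ_m` with any real
exponents such that `κ_m / log m → ∞`, and for the numbers `m ^ t` for almost all `t > 1 / (1 - θ)`.

In general let `f_m : I → ℝ` be a family of functions whose logarithmic slopes are bounded from below by a
positive constant, locally uniformly in `t` and uniformly in `m`, and which are locally bounded from below
by sequences with exponent of convergence at most `τ`. The statement holds with `f_m(t)` instead of `t ^ m` for all `t ∈ I`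
outside a set of Hausdorff dimension at most `τ / (1 - θ)`.

The starting result `PartnerWindows` is about the linear families `f_m(t) = t v_m`.
-/

set_option autoImplicit false

open Filter Topology MeasureTheory NumberField
open scoped ENNReal

namespace Pool.Agent.Results.MP_4a0cc8_nt.RealPowers

open FewPartnersAllLevels (Congruent jInvariant)

/-- the exponent of convergence of the sequence `w` is at most `τ` -/
def ExpLe (w : ℕ → ℝ) (τ : ℝ) : Prop := ∀ p : ℝ, τ < p → Summable (fun n : ℕ => (w n) ^ (-p))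

/-- For all large `n`, `f_n ≥ w_n ≥ 1` on `I` for a sequence `w` with exponent of convergence at most `τ`,
and the logarithmic slopes `(f_n(u) - f_n(t)) / ((u - t) f_n(t))`, `t < u` in `I`, are at least a positive
constant `c`. -/
def Expanding (f : ℕ → ℝ → ℝ) (I : Set ℝ) (τ : ℝ) : Prop :=
  ∃ (w : ℕ → ℝ) (c : ℝ) (n₁ : ℕ), 0 < c ∧ ExpLe w τ ∧ ∀ n, n₁ ≤ n → 1 ≤ w n ∧ ∀ t ∈ I, w n ≤ f n t ∧
    ∀ u ∈ I, t ≤ u → c * f n t * (u - t) ≤ f n u - f n t

/-- `I` is covered by countably many sets on which the family `f` is expanding -/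
def LocExpanding (f : ℕ → ℝ → ℝ) (I : Set ℝ) (τ : ℝ) : Prop :=
  ∃ J : ℕ → Set ℝ, I ⊆ ⋃ A, J A ∧ ∀ A, Expanding f (J A) τ

/-- There is `n₀` such that for every elliptic curve `E₀ : y² = x³ + A₀x + B₀` over `K`, `A₀`, `B₀` integral, there is
`m₀` such that for all `m ≥ m₀` no elliptic curve `y² = x³ + Ax + B` over `K` with `|H(j) - F_m| ≤ F_m ^ θ`, `H(j)` the
height of its invariant, is congruent to `E₀` modulo some `n ≥ n₀`. -/
def NoPartners (K : Type) [Field K] [NumberField K] (F : ℕ → ℝ) (θ : ℝ) : Prop :=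
  ∃ n₀ : ℕ, ∀ A₀ B₀ : 𝓞 K, 4 * A₀ ^ 3 + 27 * B₀ ^ 2 ≠ 0 → ∃ m₀ : ℕ, ∀ m : ℕ, m₀ ≤ m → ∀ A B : K,
    4 * A ^ 3 + 27 * B ^ 2 ≠ 0 → |Height.mulHeight₁ (jInvariant A B) - F m| ≤ (F m) ^ θ →
    ∀ n : ℕ, n₀ ≤ n → ¬ Congruent n A B (A₀ : K) (B₀ : K)

theorem main (f : ℕ → ℝ → ℝ) (I : Set ℝ) (τ θ : ℝ) (hτ : 0 ≤ τ) (hf : LocExpanding f I τ) (hθ : 0 ≤ θ)
    (hθ1 : θ < 1) (K : Type) [Field K] [NumberField K] :
    ∃ E : Set ℝ, dimH E ≤ ENNReal.ofReal (τ / (1 - θ)) ∧ ∀ t ∈ I, t ∉ E →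
      NoPartners K (fun m => f m t) θ := by
  classical
  have hK : Countable K := (Module.finBasis ℚ K).equivFun.injective.countable
  have hcnt : Countable (𝓞 K) := (RingOfIntegers.coe_injective (K := K)).countable
  have hall : ∀ j : ℕ, ∃ (n₀ : ℕ) (G : 𝓞 K × 𝓞 K → Set ℝ),
      ∀ e : 𝓞 K × 𝓞 K, dimH (G e) ≤ ENNReal.ofReal ((1 / ((j : ℝ) + 1) + τ) / (1 - θ)) ∧
      ∀ t ∈ I, t ∉ G e → 4 * e.1 ^ 3 + 27 * e.2 ^ 2 ≠ 0 → ∃ m₀ : ℕ, ∀ m : ℕ, m₀ ≤ m →
        ∀ x ∈ PartnerWindows.Partners n₀ (e.1 : K) (e.2 : K),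
          (f m t) ^ θ < |Height.mulHeight₁ x - f m t| := by
    intro j
    obtain ⟨n₀, h⟩ := PartnerWindows.partners_count (Module.finrank ℚ K) (1 / ((j : ℝ) + 1)) (by positivity)
    have hone : ∀ e : 𝓞 K × 𝓞 K, ∃ G : Set ℝ, dimH G ≤ ENNReal.ofReal ((1 / ((j : ℝ) + 1) + τ) / (1 - θ)) ∧
      ∀ t ∈ I, t ∉ G → 4 * e.1 ^ 3 + 27 * e.2 ^ 2 ≠ 0 → ∃ m₀ : ℕ, ∀ m : ℕ, m₀ ≤ m →
        ∀ x ∈ PartnerWindows.Partners n₀ (e.1 : K) (e.2 : K),
          (f m t) ^ θ < |Height.mulHeight₁ x - f m t| := by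
      intro e
      by_cases he : 4 * e.1 ^ 3 + 27 * e.2 ^ 2 ≠ 0
      · obtain ⟨C, hC, h'⟩ := h K rfl e.1 e.2 he
        obtain ⟨E, h3, h4⟩ := Pool.Agent.X16.NW.windows_loc (PartnerWindows.Partners n₀ (e.1 : K) (e.2 : K))
          (fun x => Height.mulHeight₁ x) hτ (s := 1 / ((j : ℝ) + 1)) (by positivity) hθ hθ1 (fun ε hε => by
            refine ⟨C, fun X hX => ⟨(h' X hX).1, (h' X hX).2.trans ?_⟩⟩
            apply mul_le_mul_of_nonneg_left _ hC
            exact Real.rpow_le_rpow_of_exponent_le hX (by linarith)) I f hf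
        exact ⟨E, h3, fun t ht htE _ => h4 t ht htE⟩
      · exact ⟨∅, by simp, fun t _ _ he' => absurd he' he⟩
    choose G hG using hone
    exact ⟨n₀, G, hG⟩
  choose n₀ G hG using hall
  have hlim : Tendsto (fun m : ℕ => ENNReal.ofReal ((1 / ((m : ℝ) + 1) + τ) / (1 - θ))) atTop
      (𝓝 (ENNReal.ofReal ((0 + τ) / (1 - θ)))) :=
    ENNReal.tendsto_ofReal ((tendsto_one_div_add_atTop_nhds_zero_nat.add_const τ).div_const (1 - θ))
  rw [zero_add] at hlim
  refine ⟨⋂ m, ⋃ e, G m e, ge_of_tendsto' hlim fun m => (dimH_mono (Set.iInter_subset _ m)).trans ?_,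
    fun t ht htE => ?_⟩
  · rw [dimH_iUnion]
    exact iSup_le fun e => (hG m e).1
  · rw [Set.mem_iInter] at htE
    push Not at htE
    obtain ⟨j, hj⟩ := htE
    rw [Set.mem_iUnion] at hj
    push Not at hj
    refine ⟨n₀ j, fun A₀ B₀ h0 => ?_⟩
    obtain ⟨m₀, hm⟩ := (hG j (A₀, B₀)).2 t ht (hj (A₀, B₀)) h0
    refine ⟨m₀, fun m hm1 A B hAB hw n hn hcon => ?_⟩
    exact absurd hw (not_le.2 (hm m hm1 (jInvariant A B) ⟨A, B, hAB, rfl, n, hn, hcon⟩))

theorem noPartners_mono {K : Type} [Field K] [NumberField K] {F : ℕ → ℝ} {θ θ' : ℝ} (hθ : θ ≤ θ')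
    (hF : ∃ k₁ : ℕ, ∀ k : ℕ, k₁ ≤ k → 1 ≤ F k) (h : NoPartners K F θ') : NoPartners K F θ := by
  obtain ⟨n₀, hn⟩ := h
  obtain ⟨k₁, hk'⟩ := hF
  refine ⟨n₀, fun A₀ B₀ h0 => ?_⟩
  obtain ⟨m₀, hm⟩ := hn A₀ B₀ h0
  exact ⟨max m₀ k₁, fun k hk1 A B hAB hy => hm k ((le_max_left _ _).trans hk1) A B hAB
    (hy.trans (Real.rpow_le_rpow_of_exponent_le (hk' k ((le_max_right _ _).trans hk1)) hθ))⟩

/-- Let `K` be a number field.
(1) For every locally expanding family `f` on `I` with exponent `τ ≥ 0` and `0 ≤ θ < 1` there is a set `E` of Hausdorff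
dimension at most `τ / (1 - θ)` such that for each `t ∈ I` outside `E` there is `n₀` with the following property: for every
elliptic curve `E₀ : y² = x³ + A₀x + B₀` over `K`, `A₀`, `B₀` integral, for all large `m` no elliptic curve over `K` the
invariant of which has a height `H` with `|H - f_m(t)| ≤ f_m(t) ^ θ` is congruent to `E₀` modulo some `n ≥ n₀`.
(2) `t ^ κ_m` is locally expanding on `(1, ∞)` with `τ = 0` if `κ_m / log m → ∞`, and `m ^ t` on `[a, ∞)`
with `τ = 1 / a` for all `a > 0`.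
(3) If `κ_m / log m → ∞` there is a set `E` of Hausdorff dimension zero such that the statement in (1) holds for `t ^ κ_m`
for all `t > 1` outside `E` and all `0 ≤ θ < 1`.
(4) For almost all `t > 1` the statement holds for `m ^ t` and all `θ ≥ 0` with `t > 1 / (1 - θ)`. -/
theorem result (K : Type) [Field K] [NumberField K] :
    (∀ (f : ℕ → ℝ → ℝ) (I : Set ℝ) (τ θ : ℝ), 0 ≤ τ → LocExpanding f I τ → 0 ≤ θ → θ < 1 →
      ∃ E : Set ℝ, dimH E ≤ ENNReal.ofReal (τ / (1 - θ)) ∧ ∀ t ∈ I, t ∉ E →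
        NoPartners K (fun m => f m t) θ) ∧
    ((∀ κ : ℕ → ℝ, Tendsto (fun m : ℕ => κ m / Real.log m) atTop atTop →
      LocExpanding (fun m t => t ^ κ m) (Set.Ioi 1) 0) ∧
      ∀ a : ℝ, 0 < a → LocExpanding (fun m t => (m : ℝ) ^ t) (Set.Ici a) (1 / a)) ∧
    (∀ κ : ℕ → ℝ, Tendsto (fun m : ℕ => κ m / Real.log m) atTop atTop →
      ∃ E : Set ℝ, dimH E = 0 ∧ ∀ t : ℝ, 1 < t → t ∉ E → ∀ θ : ℝ, 0 ≤ θ → θ < 1 →
        NoPartners K (fun m => t ^ κ m) θ) ∧
    (∀ᵐ t : ℝ, 1 < t → ∀ θ : ℝ, 0 ≤ θ → θ < 1 → 1 / (1 - θ) < t →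
      NoPartners K (fun m => (m : ℝ) ^ t) θ) := by
  refine ⟨fun f I τ θ hτ hf hθ hθ1 => main f I τ θ hτ hf hθ hθ1 K, ⟨fun κ hκ => Pool.Agent.X16.NW.loc_rpow κ hκ,
    fun a ha => Pool.Agent.X16.NW.loc_npow a ha⟩, fun κ hκ => ?_, ?_⟩
  · have hk : ∀ m : ℕ, (0 : ℝ) ≤ 1 - 1 / ((m : ℝ) + 1) ∧ 1 - 1 / ((m : ℝ) + 1) < 1 := by
      intro m
      have h1 : (0 : ℝ) < 1 / ((m : ℝ) + 1) := by positivity
      have h2 : 1 / ((m : ℝ) + 1) ≤ 1 := by
        rw [div_le_one (by positivity)]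
        have : (0 : ℝ) ≤ m := Nat.cast_nonneg m
        linarith
      constructor <;> linarith
    choose E hE h using fun m : ℕ => main (fun k t => t ^ κ k) (Set.Ioi 1) 0 (1 - 1 / ((m : ℝ) + 1)) le_rfl
      (Pool.Agent.X16.NW.loc_rpow κ hκ) (hk m).1 (hk m).2 K
    refine ⟨⋃ m, E m, ?_, fun t ht htE θ hθ hθ1 => ?_⟩
    · rw [dimH_iUnion]
      refine le_antisymm (iSup_le fun m => (hE m).trans ?_) zero_le
      rw [zero_div, ENNReal.ofReal_zero]
    · obtain ⟨m, hm⟩ := exists_nat_one_div_lt (sub_pos.2 hθ1)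
      refine noPartners_mono (θ' := 1 - 1 / ((m : ℝ) + 1)) (by linarith) ?_
        (h m t ht (fun h' => htE (Set.mem_iUnion.2 ⟨m, h'⟩)))
      obtain ⟨n₁, hn₁⟩ := eventually_atTop.1 (hκ.eventually_ge_atTop 0)
      refine ⟨max n₁ 2, fun n hn => Real.one_le_rpow ht.le ?_⟩
      have h4 := hn₁ n ((le_max_left _ _).trans hn)
      have h5 : 0 < Real.log n := Real.log_pos (by exact_mod_cast (le_max_right _ _).trans hn)
      by_contra hneg
      push Not at hneg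
      exact absurd h4 (not_le.2 (div_neg_of_neg_of_pos hneg h5))
  · have key : ∀ q : ℚ × ℚ, ∀ᵐ t : ℝ, 0 ≤ (q.1 : ℝ) → (q.1 : ℝ) < 1 → 1 / (1 - (q.1 : ℝ)) < (q.2 : ℝ) → (q.2 : ℝ) ≤ t →
        NoPartners K (fun k => (k : ℝ) ^ t) q.1 := by
      rintro ⟨θ, a⟩
      by_cases hq : 0 ≤ (θ : ℝ) ∧ (θ : ℝ) < 1 ∧ 1 / (1 - (θ : ℝ)) < (a : ℝ)
      · obtain ⟨hθ, hθ1, ha⟩ := hq
        have hd : 0 < 1 - (θ : ℝ) := by linarith
        have ha0 : (0 : ℝ) < a := (one_div_pos.2 hd).trans ha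
        obtain ⟨E, hE, h⟩ := main (fun k t => (k : ℝ) ^ t) (Set.Ici (a : ℝ)) (1 / a) θ (one_div_pos.2 ha0).le
          (Pool.Agent.X16.NW.loc_npow a ha0) hθ hθ1 K
        have h1 : volume E = 0 := by
          refine Pool.Agent.X16.NW.null_of_dim ?_ hE
          rw [div_lt_one hd, one_div_lt ha0 hd]
          exact ha
        have h2 : ∀ᵐ t : ℝ, t ∉ E := by
          rw [ae_iff]
          simpa using h1
        filter_upwards [h2] with t ht _ _ _ ht1
        exact h t ht1 ht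
      · filter_upwards with t h1 h2 h3
        exact absurd ⟨h1, h2, h3⟩ hq
    filter_upwards [ae_all_iff.2 key] with t ht ht1 θ hθ hθ1 htθ
    have hd : 0 < 1 - θ := by linarith
    have ht0 : 0 < t := by linarith
    have h1 : θ < 1 - 1 / t := by
      rw [one_div_lt hd ht0] at htθ
      linarith
    obtain ⟨q, hq1, hq2⟩ := exists_rat_btwn h1
    have hti : 0 < 1 / t := one_div_pos.2 ht0
    have hq3 : (q : ℝ) < 1 := by linarith
    have h2 : 1 / (1 - (q : ℝ)) < t := by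
      rw [one_div_lt (by linarith) ht0]
      linarith
    obtain ⟨a, ha1, ha2⟩ := exists_rat_btwn h2
    refine noPartners_mono hq1.le ⟨1, fun n hn => Real.one_le_rpow (by exact_mod_cast hn) ht0.le⟩ ?_
    exact ht (q, a) (hθ.trans hq1.le) hq3 ha1 ha2.le

end Pool.Agent.Results.MP_4a0cc8_nt.RealPowers
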